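import Pool.Agent.helper90.FN.Spec

/-!
Module fn:EM (MP_5ae64c_pr, functional form): exponential moments.
-/

set_option autoImplicit false
set_option linter.unusedSectionVars false

open scoped BigOperators Topology

namespace Pool.Agent.helper90.FN

open Finset
open Pool.Agent.helper72.UT (IsFor dep pth rt fors Reg lz rt_mem dep_mem pth_mem rt_not_mem
  dep_not_mem pth_not_mem self_mem_pth mem_fors pth_length fors_nonempty)
open Pool.Agent.helper20.HP (ind)

lemma EM_ind_nonneg (p : Prop) : 0 ≤ ind p := by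
  unfold ind; split_ifs <;> norm_num

lemma EM_ind_true {p : Prop} (h : p) : ind p = 1 := by
  unfold ind; rw [if_pos h]

lemma EM_ind_false {p : Prop} (h : ¬ p) : ind p = 0 := by
  unfold ind; rw [if_neg h]

variable {V : Type} [Fintype V] [DecidableEq V]

lemma EM_EF_mono {G : SimpleGraph V} {B : Finset V} {F F' : (V → V) → ℝ}
    (h : ∀ f ∈ fors G B, F f ≤ F' f) : EF G B F ≤ EF G B F' := by
  unfold EF
  exact div_le_div_of_nonneg_right (Finset.sum_le_sum h) (Nat.cast_nonneg _)

lemma EM_EF_mul {G : SimpleGraph V} {B : Finset V} (c : ℝ) (F : (V → V) → ℝ) :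
    EF G B (fun f => c * F f) = c * EF G B F := by
  unfold EF
  rw [← Finset.mul_sum, mul_div_assoc]

lemma EM_EF_sum {G : SimpleGraph V} {B : Finset V} {ι : Type} (s : Finset ι)
    (F : ι → (V → V) → ℝ) :
    EF G B (fun f => ∑ i ∈ s, F i f) = ∑ i ∈ s, EF G B (F i) := by
  unfold EF
  rw [Finset.sum_comm, Finset.sum_div]

lemma EM_rt_mem_pth {G : SimpleGraph V} {D : Finset V} {f : V → V} (hf : IsFor G D f) (v : V) :
    rt D f v ∈ pth D f v := by
  refine hf.ind (P := fun v => rt D f v ∈ pth D f v) ?_ ?_ v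
  · intro v hv
    rw [rt_mem hv, pth_mem hv]
    simp
  · intro v hv ih
    rw [rt_not_mem hv (hf.hit v), pth_not_mem hv (hf.hit v)]
    exact List.mem_cons_of_mem _ ih

lemma EM_card_erase {G : SimpleGraph V} {D : Finset V} {f : V → V} (hf : IsFor G D f) (v : V) :
    ((pth D f v).toFinset.erase (rt D f v)).card ≤ dep D f v := by
  rw [Finset.card_erase_of_mem (List.mem_toFinset.2 (EM_rt_mem_pth hf v))]
  have h1 := List.toFinset_card_le (pth D f v)
  rw [pth_length] at h1
  omega

/-- the number of vertices hanging from `W` after gluing along the path of `v` -/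
lemma EM_glue (g1 : G1_stmt) (g4 : G4_stmt) {G : SimpleGraph V} {D W : Finset V} (ℓ : V → ℕ)
    (r w : ℕ) {f g : V → V} {v : V} (hf : f ∈ fors G D)
    (hg : g ∈ fors G (dn D f v)) :
    nb D W ℓ r w (glue (dn D f v) f g) ≤ dep D f v +
      nb (dn D f v) (W ∪ (pth D f v).toFinset) (lv D ℓ f) r w g := by
  have hf' := mem_fors.1 hf
  have hg' := mem_fors.1 hg
  have hcl := (g4 V G D).1 v f hf
  obtain ⟨-, hrt, hdep, -⟩ := g1 V G D (dn D f v) f g hf hcl hg
  have hterm : ∀ u, ind (u ∉ D ∧ rt D (glue (dn D f v) f g) u ∈ W ∧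
      r ≤ lv D ℓ (glue (dn D f v) f g) u ∧ lv D ℓ (glue (dn D f v) f g) u < r + w) ≤
      (if u ∈ dn D f v \ D then (1 : ℝ) else 0) +
      ind (u ∉ dn D f v ∧ rt (dn D f v) g u ∈ W ∪ (pth D f v).toFinset ∧
        r ≤ lv (dn D f v) (lv D ℓ f) g u ∧ lv (dn D f v) (lv D ℓ f) g u < r + w) := by
    intro u
    by_cases hc : u ∉ D ∧ rt D (glue (dn D f v) f g) u ∈ W ∧
      r ≤ lv D ℓ (glue (dn D f v) f g) u ∧ lv D ℓ (glue (dn D f v) f g) u < r + w
    swap
    · rw [EM_ind_false hc]
      exact add_nonneg (by split_ifs <;> norm_num) (EM_ind_nonneg _)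
    rw [EM_ind_true hc]
    obtain ⟨c1, c2, c3, c4⟩ := hc
    by_cases hu : u ∈ dn D f v
    · rw [if_pos (Finset.mem_sdiff.2 ⟨hu, c1⟩)]
      have := EM_ind_nonneg (u ∉ dn D f v ∧ rt (dn D f v) g u ∈ W ∪ (pth D f v).toFinset ∧
        r ≤ lv (dn D f v) (lv D ℓ f) g u ∧ lv (dn D f v) (lv D ℓ f) g u < r + w)
      linarith
    · have hy : rt (dn D f v) g u ∈ dn D f v := hg'.rt_mem_B u
      have hlv : lv D ℓ (glue (dn D f v) f g) u = lv (dn D f v) (lv D ℓ f) g u := by
        unfold lv
        rw [hrt u, hdep u]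
        omega
      rw [hlv] at c3 c4
      have hyW : rt (dn D f v) g u ∈ W ∪ (pth D f v).toFinset := by
        rw [hrt u] at c2
        rw [Finset.mem_union]
        rcases Finset.mem_union.1 hy with h | h
        · left
          rwa [rt_mem h] at c2
        · exact Or.inr h
      rw [EM_ind_true ⟨hu, hyW, c3, c4⟩]
      have : (0 : ℝ) ≤ if u ∈ dn D f v \ D then (1 : ℝ) else 0 := by split_ifs <;> norm_num
      linarith
  have h1 : nb D W ℓ r w (glue (dn D f v) f g) ≤
      ∑ u, ((if u ∈ dn D f v \ D then (1 : ℝ) else 0) +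
      ind (u ∉ dn D f v ∧ rt (dn D f v) g u ∈ W ∪ (pth D f v).toFinset ∧
        r ≤ lv (dn D f v) (lv D ℓ f) g u ∧ lv (dn D f v) (lv D ℓ f) g u < r + w)) :=
    Finset.sum_le_sum fun u _ => hterm u
  rw [Finset.sum_add_distrib] at h1
  have h2 : (∑ u, if u ∈ dn D f v \ D then (1 : ℝ) else 0) ≤ dep D f v := by
    rw [Finset.sum_ite_mem, Finset.univ_inter, Finset.sum_const, nsmul_eq_mul, mul_one]
    have hsub : dn D f v \ D ⊆ (pth D f v).toFinset.erase (rt D f v) := by
      intro x hx
      rw [Finset.mem_sdiff] at hx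
      rw [Finset.mem_erase]
      rcases Finset.mem_union.1 hx.1 with h | h
      · exact absurd h hx.2
      · exact ⟨fun h' => hx.2 (h' ▸ hf'.rt_mem_B v), h⟩
    exact_mod_cast (Finset.card_le_card hsub).trans (EM_card_erase hf' v)
  unfold nb at *
  linarith

lemma EM_card {G : SimpleGraph V} {D W : Finset V} {f : V → V} {v : V} (hf : IsFor G D f)
    (h : rt D f v ∈ W) : ((W ∪ (pth D f v).toFinset).card : ℝ) ≤ W.card + dep D f v := by
  have hsub : W ∪ (pth D f v).toFinset ⊆ W ∪ (pth D f v).toFinset.erase (rt D f v) := by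
    intro x hx
    rw [Finset.mem_union] at hx ⊢
    by_cases hxr : x = rt D f v
    · exact Or.inl (hxr ▸ h)
    · rcases hx with hx | hx
      · exact Or.inl hx
      · exact Or.inr (Finset.mem_erase.2 ⟨hxr, hx⟩)
  have h1 := (Finset.card_le_card hsub).trans (Finset.card_union_le _ _)
  have h2 := EM_card_erase hf v
  have h3 : (W ∪ (pth D f v).toFinset).card ≤ W.card + dep D f v := by omega
  exact_mod_cast h3

theorem EM (g1 : G1_stmt) (g3 : G3_stmt) (g4 : G4_stmt) : EM_stmt := by
  intro V _ _ G C₀ μ a a₀ r w hG hC₀ ha ha₀ hμ hyp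
  -- strong induction
  suffices H : ∀ n : ℕ, ∀ D : Finset V, C₀ ⊆ D → (univ \ D).card = n → ∀ W ⊆ D, ∀ ℓ : V → ℕ,
      ∀ ν : ℝ, 0 ≤ ν → ν * (1 + a) ≤ μ →
      EF G D (fun g => Real.exp (ν * nb D W ℓ r w g)) ≤ Real.exp (ν * (a * W.card + a₀)) by
    intro ν hν hνμ D hD W hW ℓ
    exact H _ D hD rfl W hW ℓ ν hν hνμ
  intro n
  induction n using Nat.strong_induction_on with
  | _ n ih =>
  intro D hD hn W hW ℓ ν hν hνμ
  set A : ℝ := a * W.card + a₀ with hA
  have hDne : D.Nonempty := hC₀.mono hD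
  have hcard : (0 : ℝ) < (fors G D).card := by
    exact_mod_cast Finset.card_pos.2 (fors_nonempty hG hDne)
  -- one vertex
  have hone : ∀ s : ℝ, 0 ≤ s → s * (1 + a) ≤ μ → ∀ v : V,
      EF G D (fun f => ind (v ∉ D ∧ rt D f v ∈ W ∧ r ≤ lv D ℓ f v ∧ lv D ℓ f v < r + w) *
        Real.exp (s * nb D W ℓ r w f)) ≤
      Real.exp (s * A) * EF G D (fun f =>
        ind (v ∉ D ∧ rt D f v ∈ W ∧ r ≤ lv D ℓ f v ∧ lv D ℓ f v < r + w) *
          Real.exp (μ * dep D f v)) := by
    intro s hs hsμ v
    rw [g3 V G D (fun f => dn D f v) (fun f hf => (g4 V G D).1 v f hf)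
      (fun f hf f' hf' h => ((g4 V G D).2.1 v f hf f' hf' h).1), ← EM_EF_mul]
    apply EM_EF_mono
    intro f hf
    have hf' := mem_fors.1 hf
    -- the indicator is constant
    have hind : ∀ g ∈ fors G (dn D f v),
        ind (v ∉ D ∧ rt D (glue (dn D f v) f g) v ∈ W ∧ r ≤ lv D ℓ (glue (dn D f v) f g) v ∧
          lv D ℓ (glue (dn D f v) f g) v < r + w) =
        ind (v ∉ D ∧ rt D f v ∈ W ∧ r ≤ lv D ℓ f v ∧ lv D ℓ f v < r + w) := by
      intro g hg
      have hcl := (g4 V G D).1 v f hf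
      obtain ⟨hm, -, -, -⟩ := g1 V G D (dn D f v) f g hf hcl hg
      obtain ⟨-, -, e1, e2⟩ := (g4 V G D).2.1 v f hf _ hm (by
        intro x hx
        unfold glue
        rw [if_pos hx])
      unfold lv
      rw [e1, e2]
    by_cases hc : v ∉ D ∧ rt D f v ∈ W ∧ r ≤ lv D ℓ f v ∧ lv D ℓ f v < r + w
    swap
    · rw [EM_ind_false hc]
      have : EF G (dn D f v) (fun g => ind (v ∉ D ∧ rt D (glue (dn D f v) f g) v ∈ W ∧
          r ≤ lv D ℓ (glue (dn D f v) f g) v ∧
          lv D ℓ (glue (dn D f v) f g) v < r + w) *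
          Real.exp (s * nb D W ℓ r w (glue (dn D f v) f g))) ≤
          EF G (dn D f v) (fun g => 0 * (1 : ℝ)) := by
        apply EM_EF_mono
        intro g hg
        rw [hind g hg, EM_ind_false hc, zero_mul, zero_mul]
      rw [EM_EF_mul] at this
      linarith
    · rw [EM_ind_true hc, one_mul]
      have hsub : D ⊆ dn D f v := Finset.subset_union_left
      have hvD' : v ∈ dn D f v :=
        Finset.mem_union_right _ (List.mem_toFinset.2 (self_mem_pth v))
      have hlt : (univ \ dn D f v).card < n := by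
        rw [← hn]
        apply Finset.card_lt_card
        refine ⟨Finset.sdiff_subset_sdiff (Finset.Subset.refl _) hsub, ?_⟩
        intro h
        have h1 := h (Finset.mem_sdiff.2 ⟨Finset.mem_univ v, hc.1⟩)
        exact (Finset.mem_sdiff.1 h1).2 hvD'
      have hW' : W ∪ (pth D f v).toFinset ⊆ dn D f v := by
        apply Finset.union_subset (hW.trans hsub)
        exact Finset.subset_union_right
      have hIH := ih _ hlt (dn D f v) (hD.trans hsub) rfl _ hW' (lv D ℓ f) s hs hsμ
      have h1 : EF G (dn D f v) (fun g => ind (v ∉ D ∧ rt D (glue (dn D f v) f g) v ∈ W ∧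
          r ≤ lv D ℓ (glue (dn D f v) f g) v ∧
          lv D ℓ (glue (dn D f v) f g) v < r + w) *
          Real.exp (s * nb D W ℓ r w (glue (dn D f v) f g))) ≤
          EF G (dn D f v) (fun g => Real.exp (s * dep D f v) *
            Real.exp (s * nb (dn D f v) (W ∪ (pth D f v).toFinset) (lv D ℓ f) r w g)) := by
        apply EM_EF_mono
        intro g hg
        rw [hind g hg, EM_ind_true hc, one_mul, ← Real.exp_add, ← mul_add]
        exact Real.exp_le_exp.2 (mul_le_mul_of_nonneg_left (EM_glue g1 g4 ℓ r w hf hg) hs)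
      rw [EM_EF_mul] at h1
      refine h1.trans ((mul_le_mul_of_nonneg_left hIH (Real.exp_pos _).le).trans ?_)
      rw [← Real.exp_add, ← Real.exp_add]
      apply Real.exp_le_exp.2
      have h2 := EM_card hf' hc.2.1
      have h3 : (0 : ℝ) ≤ dep D f v := Nat.cast_nonneg _
      have h4 : s * (a * ((W ∪ (pth D f v).toFinset).card : ℝ)) ≤
          s * (a * (W.card + dep D f v)) :=
        mul_le_mul_of_nonneg_left (mul_le_mul_of_nonneg_left h2 ha) hs
      have h5 : s * (1 + a) * dep D f v ≤ μ * dep D f v := mul_le_mul_of_nonneg_right hsμ h3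
      rw [hA]
      nlinarith [h4, h5]
  -- the derivative
  set K : ℝ → ℝ := fun s => EF G D (fun g => Real.exp (s * nb D W ℓ r w g)) with hK
  set K' : ℝ → ℝ := fun s => EF G D (fun g => nb D W ℓ r w g * Real.exp (s * nb D W ℓ r w g))
    with hK'
  have hder : ∀ s, HasDerivAt K (K' s) s := by
    intro s
    rw [hK, hK']
    unfold EF
    apply HasDerivAt.div_const
    have := HasDerivAt.fun_sum (u := fors G D)
      (A := fun (g : V → V) (s : ℝ) => Real.exp (s * nb D W ℓ r w g))
      (A' := fun g => nb D W ℓ r w g * Real.exp (s * nb D W ℓ r w g)) (x := s) (by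
        intro g _
        have h1 : HasDerivAt (fun s : ℝ => s * nb D W ℓ r w g) (nb D W ℓ r w g) s := by
          simpa using (hasDerivAt_id s).mul_const (nb D W ℓ r w g)
        have h2 := h1.exp
        rw [mul_comm]
        exact h2)
    exact this
  have hKle : ∀ s : ℝ, 0 ≤ s → s * (1 + a) ≤ μ → K' s ≤ A * Real.exp (s * A) := by
    intro s hs hsμ
    have e1 : K' s = ∑ v, EF G D (fun f =>
        ind (v ∉ D ∧ rt D f v ∈ W ∧ r ≤ lv D ℓ f v ∧ lv D ℓ f v < r + w) *
        Real.exp (s * nb D W ℓ r w f)) := by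
      rw [← EM_EF_sum]
      have e2 : (fun g => nb D W ℓ r w g * Real.exp (s * nb D W ℓ r w g)) = fun f =>
          ∑ v, ind (v ∉ D ∧ rt D f v ∈ W ∧ r ≤ lv D ℓ f v ∧ lv D ℓ f v < r + w) *
            Real.exp (s * nb D W ℓ r w f) := by
        funext f
        conv_lhs => rw [nb]
        rw [Finset.sum_mul]
        rfl
      show EF G D (fun g => nb D W ℓ r w g * Real.exp (s * nb D W ℓ r w g)) = _
      rw [e2]
    rw [e1]
    refine (Finset.sum_le_sum fun v _ => hone s hs hsμ v).trans ?_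
    rw [← Finset.mul_sum, ← EM_EF_sum, mul_comm A]
    apply mul_le_mul_of_nonneg_left _ (Real.exp_pos _).le
    exact hyp D hD W hW ℓ
  have hK0 : K 0 = 1 := by
    rw [hK]
    simp only [zero_mul, Real.exp_zero]
    unfold EF
    rw [Finset.sum_const, nsmul_eq_mul, mul_one]
    exact div_self hcard.ne'
  have hder2 : ∀ s, HasDerivAt (fun s => Real.exp (s * A) - K s)
      (A * Real.exp (s * A) - K' s) s := by
    intro s
    have h1 : HasDerivAt (fun s : ℝ => s * A) A s := by
      simpa using (hasDerivAt_id s).mul_const A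
    have h2 := h1.exp
    rw [mul_comm] at h2
    exact h2.sub (hder s)
  have hmono : MonotoneOn (fun s => Real.exp (s * A) - K s) (Set.Icc 0 ν) := by
    apply monotoneOn_of_deriv_nonneg (convex_Icc 0 ν)
    · exact fun s _ => (hder2 s).continuousAt.continuousWithinAt
    · exact fun s _ => (hder2 s).differentiableAt.differentiableWithinAt
    · intro s hs
      rw [interior_Icc] at hs
      rw [(hder2 s).deriv]
      have h1 : s * (1 + a) ≤ μ :=
        (mul_le_mul_of_nonneg_right hs.2.le (by linarith)).trans hνμ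
      linarith [hKle s hs.1.le h1]
  have := hmono (Set.left_mem_Icc.2 hν) (Set.right_mem_Icc.2 hν) hν
  simp only [zero_mul, Real.exp_zero, hK0, sub_self] at this
  linarith

end Pool.Agent.helper90.FN
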